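import Pool.Agent.Helper7.EC_E.GoalsR

/-!
# MP_ecc237_nt, Part E, packet R0
-/

set_option autoImplicit false

open MeasureTheory Filter Topology Set

namespace EC237.ZE.PkR0

/-- `(κ1,κ2,κ3) ↦ (κ1+κ2, κ1, κ3)` -/
def ee : Tri ≃ (ℤ × ℤ) × ((ℤ × ℤ) × (ℤ × ℤ)) where
  toFun p := (p.1 + p.2.1, (p.1, p.2.2))
  invFun q := (q.2.1, (q.1 - q.2.1, q.2.2))
  left_inv p := by simp
  right_inv q := by simp

theorem thm : EC237.ZE.G_R0 := by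
  intro c F G h
  have hg : Summable (fun q : (ℤ × ℤ) × ((ℤ × ℤ) × (ℤ × ℤ)) => c q.1 * F q.1 q.2.1 * G q.1 q.2.2) := by
    rw [← ee.summable_iff]
    exact h
  have hin : ∀ s : ℤ × ℤ, ∑' q : (ℤ × ℤ) × (ℤ × ℤ), c s * F s q.1 * G s q.2 =
      c s * (∑' k, F s k) * (∑' k, G s k) := by
    intro s
    have h1 : Summable (fun q : (ℤ × ℤ) × (ℤ × ℤ) => c s * F s q.1 * G s q.2) := hg.prod_factor s
    rw [h1.tsum_prod]
    simp only [tsum_mul_left, tsum_mul_right]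
  have hs := hg.prod
  have e1 : ∑' p : Tri, c (p.1 + p.2.1) * F (p.1 + p.2.1) p.1 * G (p.1 + p.2.1) p.2.2 =
      ∑' q : (ℤ × ℤ) × ((ℤ × ℤ) × (ℤ × ℤ)), c q.1 * F q.1 q.2.1 * G q.1 q.2.2 :=
    ee.tsum_eq (fun q : (ℤ × ℤ) × ((ℤ × ℤ) × (ℤ × ℤ)) => c q.1 * F q.1 q.2.1 * G q.1 q.2.2)
  refine ⟨?_, ?_⟩
  · have e2 : (fun s : ℤ × ℤ => c s * (∑' k, F s k) * (∑' k, G s k)) =
        fun s => ∑' q : (ℤ × ℤ) × (ℤ × ℤ), c s * F s q.1 * G s q.2 := funext fun s => (hin s).symm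
    rw [e2]
    exact hs
  · rw [e1, hg.tsum_prod]
    exact tsum_congr hin

end EC237.ZE.PkR0
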